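import Pool.Agent.Helper93.NoFinite

set_option autoImplicit false
open scoped NNReal ENNReal Topology

namespace Pool.Agent.Results.MP_b87f19_lc.ExactGauges

/-- For a gauge function `f`, every set of reals of positive `f`-Hausdorff measure has a subset of
finite positive `f`-Hausdorff measure if and only if `f t / t` does not tend to infinity at `0`. -/
theorem result (f : ℝ≥0 → ℝ≥0) (hmono : Monotone f) (hf0 : f 0 = 0)
    (hpos : ∀ r : ℝ≥0, 0 < r → 0 < f r)
    (hrc : ∀ x : ℝ≥0, ContinuousWithinAt f (Set.Ici x) x) :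
    (∀ A : Set ℝ,
        0 < (MeasureTheory.OuterMeasure.mkMetric
              (fun r : ℝ≥0∞ => ((f r.toNNReal : ℝ≥0) : ℝ≥0∞)) : MeasureTheory.OuterMeasure ℝ) A →
        ∃ A₀ ⊆ A,
          0 < (MeasureTheory.OuterMeasure.mkMetric
                (fun r : ℝ≥0∞ => ((f r.toNNReal : ℝ≥0) : ℝ≥0∞)) :
                MeasureTheory.OuterMeasure ℝ) A₀ ∧
          (MeasureTheory.OuterMeasure.mkMetric
              (fun r : ℝ≥0∞ => ((f r.toNNReal : ℝ≥0) : ℝ≥0∞)) :
              MeasureTheory.OuterMeasure ℝ) A₀ < ∞) ↔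
      ¬ Filter.Tendsto (fun t : ℝ≥0 => f t / t) (𝓝[>] 0) Filter.atTop :=
  Pool.Agent.Helper93.NoFinite.characterization f hmono hf0

end Pool.Agent.Results.MP_b87f19_lc.ExactGauges
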