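import Pool.Agent.Helper93.NoFinite

set_option autoImplicit false
open scoped NNReal ENNReal

namespace Pool.Agent.Results.MP_b87f19_lc.StarRefuted

/-- The statement (star) of the problem is refutable: it is not true that for every gauge function
`f` and every set `A` of reals with positive `f`-Hausdorff measure there is a subset of `A` of
finite positive `f`-Hausdorff measure. -/
theorem result :
    ¬ (∀ f : ℝ≥0 → ℝ≥0, Monotone f → f 0 = 0 → (∀ r : ℝ≥0, 0 < r → 0 < f r) →
      (∀ x : ℝ≥0, ContinuousWithinAt f (Set.Ici x) x) →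
      ∀ A : Set ℝ,
        0 < (MeasureTheory.OuterMeasure.mkMetric
              (fun r : ℝ≥0∞ => ((f r.toNNReal : ℝ≥0) : ℝ≥0∞)) : MeasureTheory.OuterMeasure ℝ) A →
        ∃ A₀ ⊆ A,
          0 < (MeasureTheory.OuterMeasure.mkMetric
                (fun r : ℝ≥0∞ => ((f r.toNNReal : ℝ≥0) : ℝ≥0∞)) :
                MeasureTheory.OuterMeasure ℝ) A₀ ∧
          (MeasureTheory.OuterMeasure.mkMetric
              (fun r : ℝ≥0∞ => ((f r.toNNReal : ℝ≥0) : ℝ≥0∞)) :
              MeasureTheory.OuterMeasure ℝ) A₀ < ∞) := by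
  intro h
  have h1 := h NNReal.sqrt NNReal.sqrt.monotone NNReal.sqrt_zero
    (fun r hr => NNReal.sqrt_pos.mpr hr) (fun x => NNReal.continuous_sqrt.continuousWithinAt)
  exact (Pool.Agent.Helper93.NoFinite.characterization NNReal.sqrt NNReal.sqrt.monotone
    NNReal.sqrt_zero).mp h1 Pool.Agent.Helper93.NoFinite.sqrt_tendsto

end Pool.Agent.Results.MP_b87f19_lc.StarRefuted
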